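import Pool.Agent.H144.TS.Stm

/-! Part COLR of the project TS: few numbers `n` have prime factors `p` and `r > y` with
`r ∣ p - 1` (adapted from part COL of the project CY by helper747). -/

set_option autoImplicit false

namespace Pool.Agent.H410.TS144

open Finset Pool.Agent.H633.CY Pool.Agent.H144.TS

theorem card_mult (N m : ℕ) :
    ((((Icc 1 N).filter (fun n => m ∣ n)).card : ℕ) : ℝ) ≤ (N : ℝ) / m := by
  have h1 : (Icc 1 N).filter (fun n => m ∣ n) = (Ioc 0 N).filter (fun n => m ∣ n) := by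
    ext n
    simp only [mem_filter, mem_Icc, mem_Ioc]
    constructor
    · rintro ⟨⟨h1, h2⟩, h3⟩
      exact ⟨⟨h1, h2⟩, h3⟩
    · rintro ⟨⟨h1, h2⟩, h3⟩
      exact ⟨⟨h1, h2⟩, h3⟩
  rw [h1, Nat.Ioc_filter_dvd_card_eq_div]
  exact Nat.cast_div_le

/-- the tail of the series of the inverse squares -/
theorem tail {N : ℕ} {y : ℝ} (hy : 1 ≤ y) :
    ∑ r ∈ (Icc 1 N).filter (fun r : ℕ => r.Prime ∧ y < r), 1 / (r : ℝ) ^ 2 ≤ 2 / y := by
  set k := ⌊y⌋₊ with hk
  have hk1 : 1 ≤ k := Nat.le_floor (by exact_mod_cast hy)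
  have hky : y < k + 1 := Nat.lt_floor_add_one y
  have hk1' : (1 : ℝ) ≤ k := by exact_mod_cast hk1
  rcases Nat.lt_or_ge N k with hN | hN
  · have h1 : (Icc 1 N).filter (fun r : ℕ => r.Prime ∧ y < r) = ∅ := by
      rw [filter_eq_empty_iff]
      intro r hr h2
      have h3 : k < r := by
        have h4 : (k : ℝ) < r := (Nat.floor_le (by linarith)).trans_lt h2.2
        exact_mod_cast h4
      have := (mem_Icc.1 hr).2
      omega
    rw [h1, sum_empty]
    positivity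
  · have h1 : (Icc 1 N).filter (fun r : ℕ => r.Prime ∧ y < r) ⊆ Ioc k N := by
      intro r hr
      rw [mem_filter] at hr
      rw [mem_Ioc]
      refine ⟨?_, (mem_Icc.1 hr.1).2⟩
      have h4 : (k : ℝ) < r := (Nat.floor_le (by linarith)).trans_lt hr.2.2
      exact_mod_cast h4
    calc ∑ r ∈ (Icc 1 N).filter (fun r : ℕ => r.Prime ∧ y < r), 1 / (r : ℝ) ^ 2
        ≤ ∑ r ∈ Ioc k N, 1 / (r : ℝ) ^ 2 :=
          sum_le_sum_of_subset_of_nonneg h1 fun _ _ _ => by positivity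
      _ = ∑ r ∈ Ioc k N, ((r : ℝ) ^ 2)⁻¹ := by simp only [one_div]
      _ ≤ (k : ℝ)⁻¹ - (N : ℝ)⁻¹ := sum_Ioc_inv_sq_le_sub (by omega) hN
      _ ≤ (k : ℝ)⁻¹ := by
          have : (0 : ℝ) ≤ (N : ℝ)⁻¹ := by positivity
          linarith
      _ ≤ 2 / y := by
          rw [inv_eq_one_div, div_le_div_iff₀ (by linarith) (by linarith)]
          linarith

theorem t_colr (h : Pool.Agent.H633.CY.S_BTS) : S_COLR := by
  classical
  obtain ⟨C, hC, hB⟩ := h
  refine ⟨2 * C, by positivity, ?_⟩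
  intro N hN y hy
  set u := Real.log (Real.log N) with hu
  let A : ℕ → Finset ℕ := fun r => (Icc 1 N).filter (fun p : ℕ => p.Prime ∧ r ∣ p - 1)
  let B : Finset ℕ := (Icc 1 N).filter (fun r : ℕ => r.Prime ∧ y < r)
  have hsub : (Icc 1 N).filter (fun n => ∃ r p : ℕ, r.Prime ∧ p.Prime ∧ y < r ∧ r ∣ p - 1 ∧
      r ∣ n ∧ p ∣ n) ⊆
      B.biUnion fun r => ((A r).biUnion fun p => (Icc 1 N).filter (fun n => r * p ∣ n)) := by
    intro n hn
    rw [mem_filter, mem_Icc] at hn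
    obtain ⟨⟨hn1, hnN⟩, r, p, hr, hp, hyr, hrp, hrn, hpn⟩ := hn
    rw [mem_biUnion]
    have hne : r ≠ p := by
      intro he
      subst he
      have h3 := Nat.le_of_dvd (by have := hp.one_lt; omega) hrp
      have := hp.one_lt
      omega
    have hdvd : r * p ∣ n :=
      Nat.Coprime.mul_dvd_of_dvd_of_dvd ((Nat.coprime_primes hr hp).2 hne) hrn hpn
    refine ⟨r, mem_filter.2 ⟨mem_Icc.2 ⟨hr.one_lt.le, (Nat.le_of_dvd (by omega) hrn).trans hnN⟩,
      hr, hyr⟩, ?_⟩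
    rw [mem_biUnion]
    refine ⟨p, mem_filter.2 ⟨mem_Icc.2 ⟨hp.one_lt.le, (Nat.le_of_dvd (by omega) hpn).trans hnN⟩,
      hp, hrp⟩, mem_filter.2 ⟨mem_Icc.2 ⟨hn1, hnN⟩, hdvd⟩⟩
  have hN0 : (0 : ℝ) ≤ N := Nat.cast_nonneg N
  have hr : ∀ r ∈ B, ((((A r).biUnion fun p =>
      (Icc 1 N).filter (fun n => r * p ∣ n)).card : ℕ) : ℝ) ≤
      N * (C * u) * (1 / (r : ℝ) ^ 2) := by
    intro r hrB
    have hrp : r.Prime := (mem_filter.1 hrB).2.1
    have hr0 : (0 : ℝ) < r := by exact_mod_cast hrp.pos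
    calc ((((A r).biUnion fun p =>
        (Icc 1 N).filter (fun n => r * p ∣ n)).card : ℕ) : ℝ) ≤
          ∑ p ∈ A r, ((((Icc 1 N).filter (fun n => r * p ∣ n)).card : ℕ) : ℝ) := by
            exact_mod_cast card_biUnion_le
        _ ≤ ∑ p ∈ A r, (N : ℝ) * (1 / r) * (1 / (p : ℝ)) := by
            refine sum_le_sum fun p _ => ?_
            have h3 := card_mult N (r * p)
            push_cast at h3
            refine h3.trans (le_of_eq ?_)
            rw [mul_one_div, mul_one_div, div_div]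
        _ = N * (1 / r) * ∑ p ∈ A r, 1 / (p : ℝ) := by rw [← mul_sum]
        _ ≤ N * (1 / r) * (C * u / r) :=
            mul_le_mul_of_nonneg_left (hB N hN r hrp) (by positivity)
        _ = N * (C * u) * (1 / (r : ℝ) ^ 2) := by
            field_simp
  have hu0 : 0 ≤ u := by
    have h1 := hB N hN 2 Nat.prime_two
    have h2 : 0 ≤ C * u / (2:ℕ) :=
      le_trans (sum_nonneg fun _ _ => by positivity) h1
    have h3 : 0 ≤ C * u := by
      have h4 : C * u / (2:ℕ) * 2 = C * u := by push_cast; ring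
      rw [← h4]
      positivity
    exact nonneg_of_mul_nonneg_right h3 hC
  calc ((((Icc 1 N).filter (fun n => ∃ r p : ℕ, r.Prime ∧ p.Prime ∧ y < r ∧ r ∣ p - 1 ∧
      r ∣ n ∧ p ∣ n)).card : ℕ) : ℝ)
      ≤ (((B.biUnion fun r => ((A r).biUnion fun p =>
        (Icc 1 N).filter (fun n => r * p ∣ n))).card : ℕ) : ℝ) := by
        exact_mod_cast card_le_card hsub
    _ ≤ ∑ r ∈ B, ((((A r).biUnion fun p =>
        (Icc 1 N).filter (fun n => r * p ∣ n)).card : ℕ) : ℝ) := by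
        exact_mod_cast card_biUnion_le
    _ ≤ ∑ r ∈ B, N * (C * u) * (1 / (r : ℝ) ^ 2) := sum_le_sum hr
    _ = N * (C * u) * ∑ r ∈ B, 1 / (r : ℝ) ^ 2 := by rw [← mul_sum]
    _ ≤ N * (C * u) * (2 / y) :=
        mul_le_mul_of_nonneg_left (tail hy) (by positivity)
    _ = 2 * C * (N * u / y) := by ring

end Pool.Agent.H410.TS144
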